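import Pool.Agent.Helper61.Tri.Goals

/-!
# Packet E2: `s` centres and one DI apex function
-/

set_option autoImplicit false

open Finset

namespace Pool.Agent.Helper5.Tri

open Pool.Agent.Helper61.Tri

open scoped Classical

/-- a grid vertex -/
def GV {V : Type} (m : ℕ) (x w : ℕ → V) (p : V) : Prop :=
  (∃ i < m, p = x i) ∨ ∃ j < m, p = w j

section

variable {V : Type} [Fintype V] {G : SimpleGraph V} {m : ℕ} {x w : ℕ → V}

omit [Fintype V] in
theorem card_img {f : ℕ → V} (h : ∀ i < m, ∀ j < m, f i = f j → i = j) :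
    ((Finset.range m).image f).card = m := by
  rw [Finset.card_image_of_injOn, Finset.card_range]
  intro i hi j hj hij
  exact h i (by simpa using hi) j (by simpa using hj) hij

theorem cn_big (hG : Grid G m x w) {p d : V} (hp : GV m x w p) (hd : Center G m x w d) :
    G.Adj p d ∧ m ≤ (cn G p d).card := by
  rcases hp with ⟨i, hi, rfl⟩ | ⟨j, hj, rfl⟩
  · refine ⟨(hd i hi).1, ?_⟩
    rw [← card_img hG.injw]
    refine Finset.card_le_card fun v hv => ?_
    obtain ⟨j, hj, rfl⟩ := Finset.mem_image.1 hv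
    have hj' : j < m := by simpa using hj
    simp only [cn, Finset.mem_filter, Finset.mem_univ, true_and]
    exact ⟨hG.adj i hi j hj', (hd j hj').2.symm⟩
  · refine ⟨(hd j hj).2, ?_⟩
    rw [← card_img hG.injx]
    refine Finset.card_le_card fun v hv => ?_
    obtain ⟨i, hi, rfl⟩ := Finset.mem_image.1 hv
    have hi' : i < m := by simpa using hi
    simp only [cn, Finset.mem_filter, Finset.mem_univ, true_and]
    exact ⟨(hG.adj i hi' j hj).symm, (hd i hi').1.symm⟩

theorem link_grid (hl : Link) (hG : Grid G m x w) (L : List V) (S : Finset V) {p q : V}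
    (hL : L.Nodup) (hL0 : L ≠ []) (hpq : p ≠ q) (hp : GV m x w p) (hq : GV m x w q)
    (hpS : p ∉ S) (hqS : q ∉ S) (hLS : ∀ d ∈ L, d ∉ S) (hc : ∀ d ∈ L, Center G m x w d)
    (hm : S.card + 8 * L.length + 10 ≤ m) :
    ∃ S', EP G (2 * L.length) p q S' ∧ Disjoint S S' := by
  have hne : ∀ {p}, GV m x w p → p ∉ L := fun hp h =>
    (cn_big hG hp (hc _ h)).1.ne rfl
  refine hl V G L ((Finset.range m).image x) S p q m hL hL0 hpq (hne hp) (hne hq) hpS hqS hLS
    ?_ (card_img hG.injx).ge ?_ ?_ hm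
  · intro z hz d hd
    obtain ⟨i, hi, rfl⟩ := Finset.mem_image.1 hz
    exact cn_big hG (Or.inl ⟨i, by simpa using hi, rfl⟩) (hc d hd)
  · intro d hd
    exact cn_big hG hp (hc d (List.mem_of_mem_head? (Option.mem_def.2 hd)))
  · intro d hd
    exact cn_big hG hq (hc d (List.mem_of_getLast? hd))

end

theorem e2 : EPTools → Link → E2 := by
  intro ht hl s hs V _ G m x w hm hG c hcinj hcen g hg hgc
  have h0 : 0 < m := by omega
  have h1 : 1 < m := by omega
  have x0 : GV m x w (x 0) := Or.inl ⟨0, h0, rfl⟩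
  have x1 : GV m x w (x 1) := Or.inl ⟨1, h1, rfl⟩
  have w0 : GV m x w (w 0) := Or.inr ⟨0, h0, rfl⟩
  have w1 : GV m x w (w 1) := Or.inr ⟨1, h1, rfl⟩
  have x01 : x 0 ≠ x 1 := fun h => by simpa using hG.injx 0 h0 1 h1 h
  have w01 : w 0 ≠ w 1 := fun h => by simpa using hG.injw 0 h0 1 h1 h
  have xw00 : x 0 ≠ w 0 := (hG.adj 0 h0 0 h0).ne
  have xw01 : x 0 ≠ w 1 := (hG.adj 0 h0 1 h1).ne
  have xw10 : x 1 ≠ w 0 := (hG.adj 1 h1 0 h0).ne
  have xw11 : x 1 ≠ w 1 := (hG.adj 1 h1 1 h1).ne
  have g01 : g 0 0 ≠ g 1 1 := hg.di 0 h0 0 h0 1 h1 1 h1 (by norm_num) (by norm_num)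
  have g0x0 : g 0 0 ≠ x 0 := hg.nx 0 h0 0 h0 0 h0 0 h0
  have g0x1 : g 0 0 ≠ x 1 := hg.nx 0 h0 0 h0 1 h1 0 h0
  have g1x0 : g 1 1 ≠ x 0 := hg.nx 1 h1 1 h1 0 h0 0 h0
  have g1x1 : g 1 1 ≠ x 1 := hg.nx 1 h1 1 h1 1 h1 0 h0
  have g0w0 : g 0 0 ≠ w 0 := hg.nw 0 h0 0 h0 0 h0 0 h0
  have g0w1 : g 0 0 ≠ w 1 := hg.nw 0 h0 0 h0 0 h0 1 h1
  have g1w0 : g 1 1 ≠ w 0 := hg.nw 1 h1 1 h1 0 h0 0 h0
  have g1w1 : g 1 1 ≠ w 1 := hg.nw 1 h1 1 h1 0 h0 1 h1
  have cg0 : ∀ l, c l ≠ g 0 0 := fun l => (hgc l 0 h0 0 h0 0 h0 0 h0).symm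
  have cg1 : ∀ l, c l ≠ g 1 1 := fun l => (hgc l 1 h1 1 h1 0 h0 0 h0).symm
  have cx : ∀ l, ∀ i < m, c l ≠ x i := fun l i hi => (hcen l i hi).1.ne'
  have cw : ∀ l, ∀ i < m, c l ≠ w i := fun l i hi => (hcen l i hi).2.ne'
  have e0 : EP G 1 (w 0) (x 0) {w 0, x 0, g 0 0} :=
    ht.single (hG.adj 0 h0 0 h0).symm (hg.adjw 0 h0 0 h0) (hg.adjx 0 h0 0 h0)
  have e0' : EP G 1 (x 0) (w 0) {x 0, w 0, g 0 0} :=
    ht.single (hG.adj 0 h0 0 h0) (hg.adjx 0 h0 0 h0) (hg.adjw 0 h0 0 h0)
  have e1 : EP G 1 (x 1) (w 1) {x 1, w 1, g 1 1} :=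
    ht.single (hG.adj 1 h1 1 h1) (hg.adjx 1 h1 1 h1) (hg.adjw 1 h1 1 h1)
  have hLn : (List.ofFn c).Nodup := List.nodup_ofFn.2 hcinj
  have hL0 : List.ofFn c ≠ [] := by
    intro h
    have := congrArg List.length h
    simp at this
    omega
  have hLc : ∀ d ∈ List.ofFn c, Center G m x w d := by
    intro d hd
    obtain ⟨l, rfl⟩ := List.mem_ofFn.1 hd
    exact hcen l
  refine ⟨?_, ?_, ?_⟩
  · -- P
    obtain ⟨S', hS', hd⟩ := link_grid hl hG (List.ofFn c) {w 0, g 0 0, w 1, g 1 1} hLn hL0 x01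
      x0 x1 (by simp [xw00, xw01, g0x0.symm, g1x0.symm])
      (by simp [xw10, xw11, g0x1.symm, g1x1.symm])
      (fun d hd => by
        obtain ⟨l, rfl⟩ := List.mem_ofFn.1 hd
        simp [cg0 l, cg1 l, cw l 0 h0, cw l 1 h1]) hLc (by
          have := Finset.card_le_four (a := w 0) (b := g 0 0) (c := w 1) (d := g 1 1)
          rw [List.length_ofFn]
          omega)
    rw [List.length_ofFn] at hS'
    rw [Finset.disjoint_left] at hd
    have p1 := ht.trans e0 hS' (by
      intro v hv
      rw [Finset.mem_inter] at hv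
      simp only [Finset.mem_insert, Finset.mem_singleton] at hv ⊢
      rcases hv with ⟨rfl | rfl | rfl, h⟩
      · exact absurd h (hd (by simp))
      · rfl
      · exact absurd h (hd (by simp)))
    have p2 := ht.trans p1 e1 (by
      intro v hv
      rw [Finset.mem_inter, Finset.mem_union] at hv
      simp only [Finset.mem_insert, Finset.mem_singleton] at hv ⊢
      rcases hv with ⟨h, rfl | rfl | rfl⟩
      · rfl
      · rcases h with (h | h | h) | h
        · exact absurd h.symm w01
        · exact absurd h.symm xw01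
        · exact absurd h.symm g0w1
        · exact absurd h (hd (by simp))
      · rcases h with (h | h | h) | h
        · exact absurd h g1w0
        · exact absurd h g1x0
        · exact absurd h.symm g01
        · exact absurd h (hd (by simp)))
    show EPath G (2 * s + 2)
    rw [show 2 * s + 2 = 1 + 2 * s + 1 by ring]
    exact ⟨_, _, _, p2⟩
  · -- Ce
    obtain ⟨t, rfl⟩ : ∃ t, s = t + 1 := ⟨s - 1, by omega⟩
    obtain ⟨C, hC⟩ : ∃ C : Finset V, C = Finset.univ.image fun i : Fin t => c i.succ := ⟨_, rfl⟩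
    have hCc : C.card ≤ t := by
      rw [hC]
      exact Finset.card_image_le.trans (by simp)
    have hCm : ∀ v ∈ C, ∃ i : Fin t, v = c i.succ := by
      intro v hv
      rw [hC] at hv
      obtain ⟨i, -, h⟩ := Finset.mem_image.1 hv
      exact ⟨i, h.symm⟩
    have hCnot : ∀ v, (∀ l, c l ≠ v) → v ∉ C := fun v h h' => by
      obtain ⟨i, rfl⟩ := hCm v h'
      exact h _ rfl
    obtain ⟨S1, hS1, hd1⟩ := link_grid hl hG [c 0] ({x 0, g 0 0, w 1, g 1 1} ∪ C)
      (List.nodup_singleton _) (by simp) xw10.symm w0 x1 (by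
        rw [Finset.mem_union, not_or]
        exact ⟨by simp [xw00.symm, g0w0.symm, w01, g1w0.symm], hCnot _ fun l => cw l 0 h0⟩) (by
        rw [Finset.mem_union, not_or]
        exact ⟨by simp [x01.symm, g0x1.symm, xw11, g1x1.symm], hCnot _ fun l => cx l 1 h1⟩)
      (fun d hd => by
        rw [List.mem_singleton] at hd
        subst hd
        rw [Finset.mem_union, not_or]
        refine ⟨by simp [cg0 0, cg1 0, cw 0 1 h1, cx 0 0 h0], fun h => ?_⟩
        obtain ⟨i, hi⟩ := hCm _ h
        exact absurd (hcinj hi) (Fin.succ_ne_zero i).symm)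
      (fun d hd => by
        rw [List.mem_singleton] at hd
        subst hd
        exact hcen 0) (by
        have h4 := Finset.card_le_four (a := x 0) (b := g 0 0) (c := w 1) (d := g 1 1)
        have h5 := Finset.card_union_le ({x 0, g 0 0, w 1, g 1 1} : Finset V) C
        rw [List.length_singleton]
        omega)
    rw [List.length_singleton] at hS1
    obtain ⟨S2, hS21, hS2, hc2, hw0, hx1⟩ := ht.shrink hS1
    have hd2 : Disjoint ({x 0, g 0 0, w 1, g 1 1} ∪ C) S2 :=
      Finset.disjoint_of_subset_right hS21 hd1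
    rw [Finset.disjoint_left] at hd2
    obtain ⟨S3, hS3, hd3⟩ := link_grid hl hG (List.ofFn fun i : Fin t => c i.succ)
      (S2 ∪ {g 0 0, g 1 1}) (List.nodup_ofFn.2 (hcinj.comp (Fin.succ_injective t)))
      (by
        intro h
        have := congrArg List.length h
        simp at this
        omega) xw01.symm w1 x0 (by
        rw [Finset.mem_union, not_or]
        exact ⟨hd2 (by simp), by simp [g0w1.symm, g1w1.symm]⟩) (by
        rw [Finset.mem_union, not_or]
        exact ⟨hd2 (by simp), by simp [g0x0.symm, g1x0.symm]⟩)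
      (fun d hd => by
        obtain ⟨l, rfl⟩ := List.mem_ofFn.1 hd
        rw [Finset.mem_union, not_or]
        refine ⟨hd2 ?_, by simp [cg0 l.succ, cg1 l.succ]⟩
        rw [Finset.mem_union, hC]
        exact Or.inr (Finset.mem_image.2 ⟨l, Finset.mem_univ _, rfl⟩))
      (fun d hd => by
        obtain ⟨l, rfl⟩ := List.mem_ofFn.1 hd
        exact hcen _) (by
        have h4 := Finset.card_le_two (a := g 0 0) (b := g 1 1)
        have h5 := Finset.card_union_le S2 ({g 0 0, g 1 1} : Finset V)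
        rw [List.length_ofFn]
        omega)
    rw [List.length_ofFn] at hS3
    rw [Finset.disjoint_left] at hd3
    have p1 := ht.trans e0' hS2 (by
      intro v hv
      rw [Finset.mem_inter] at hv
      simp only [Finset.mem_insert, Finset.mem_singleton] at hv ⊢
      rcases hv with ⟨rfl | rfl | rfl, h⟩
      · exact absurd h (hd2 (by simp))
      · rfl
      · exact absurd h (hd2 (by simp)))
    have p2 := ht.trans p1 e1 (by
      intro v hv
      rw [Finset.mem_inter, Finset.mem_union] at hv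
      simp only [Finset.mem_insert, Finset.mem_singleton] at hv ⊢
      rcases hv with ⟨h, rfl | rfl | rfl⟩
      · rfl
      · rcases h with (h | h | h) | h
        · exact absurd h.symm xw01
        · exact absurd h.symm w01
        · exact absurd h.symm g0w1
        · exact absurd h (hd2 (by simp))
      · rcases h with (h | h | h) | h
        · exact absurd h g1x0
        · exact absurd h g1w0
        · exact absurd h.symm g01
        · exact absurd h (hd2 (by simp)))
    have p3 := ht.close p2 hS3 (by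
      intro v hv
      rw [Finset.mem_inter, Finset.mem_union, Finset.mem_union] at hv
      simp only [Finset.mem_insert, Finset.mem_singleton] at hv ⊢
      obtain ⟨h, h'⟩ := hv
      rcases h with ((rfl | rfl | rfl) | h) | (rfl | rfl | rfl)
      · exact Or.inl rfl
      · exact absurd h' (hd3 (Finset.mem_union_left _ hw0))
      · exact absurd h' (hd3 (by simp))
      · exact absurd h' (hd3 (Finset.mem_union_left _ h))
      · exact absurd h' (hd3 (Finset.mem_union_left _ hx1))
      · exact Or.inr rfl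
      · exact absurd h' (hd3 (by simp))) (by omega) (by omega)
    show ECyc G (2 * (t + 1) + 2)
    rw [show 2 * (t + 1) + 2 = 1 + 2 * 1 + 1 + 2 * t by ring]
    exact p3
  · -- Co
    obtain ⟨S', hS', hd⟩ := link_grid hl hG (List.ofFn c) {g 0 0} hLn hL0 xw00
      x0 w0 (by simp [g0x0.symm]) (by simp [g0w0.symm])
      (fun d hd => by
        obtain ⟨l, rfl⟩ := List.mem_ofFn.1 hd
        simp [cg0 l]) hLc (by
          rw [List.length_ofFn, Finset.card_singleton]
          omega)
    rw [List.length_ofFn] at hS'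
    rw [Finset.disjoint_left] at hd
    have p1 := ht.close e0 hS' (by
      intro v hv
      rw [Finset.mem_inter] at hv
      simp only [Finset.mem_insert, Finset.mem_singleton] at hv ⊢
      rcases hv with ⟨rfl | rfl | rfl, h⟩
      · exact Or.inl rfl
      · exact Or.inr rfl
      · exact absurd h (hd (by simp))) le_rfl (by omega)
    show ECyc G (2 * s + 1)
    rw [show 2 * s + 1 = 1 + 2 * s by ring]
    exact p1

end Pool.Agent.Helper5.Tri
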